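import Pool.Agent.Helper660_fall.RateFinal

/-!
A quantitative asymptotic form of the Harary-Livingston question: for large `k` the domination
number and the independent domination number of the hypercube `Q_k` both lie between
`2 ^ k / (k + 1)` and `(1 + exp (-(log log k)^2 / 8)) 2 ^ k / (k + 1)`.

Idea of the proof. A fall colouring of a cube is a partition into independent dominating sets.
(1) Fall colourings of the cube of dimension `N` with `P` and with `P'` colours give one of the cube
of dimension `2 N + 1` with `P + P'` colours; with the Hamming code and a fall 5-colouring of `Q_6`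
all numbers of colours from `4` to `2 ^ b - 2` occur in dimension `2 ^ b - 1`.
(2) The partition of `F × U` (`F` the field of `r ^ (J + 1)` elements, `U` a subgroup of order
`r ^ J`, `r` prime) into the subgroups `{(a u, u)}`, `a ∈ F`, and `F × 0` turns a fall colouring
with `r ^ J` colours in dimension `N` into one with `r ^ (2 J + 1)` colours in dimension about
`N r ^ (J + 1)`; the density does not change.
(3) By the theorem on primes in short intervals `r ^ J` can be taken very close to any given
large number, so a dimension `y` (all numbers of colours up to `(1 - ε) y`) leads to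
`2 ^ t y ^ (2 + 1 / J)` with `7 ε` in place of `ε`. Starting with the powers of two, `K` rounds reach
all `2 ^ (n / J ^ K)`, `n` large; here `J = 16 ^ K` and `K` is of order `log log k`.
-/

namespace Pool.Agent.Results.MP_bc2c67_co.RateOfEquality

open Finset Filter Topology

/-- `E` is a dominating set of the hypercube `Q_k` on `{0,1}^k`. -/
def Dominating (k : ℕ) (E : Finset (Fin k → Bool)) : Prop :=
  ∀ v : Fin k → Bool, v ∈ E ∨ ∃ u ∈ E, hammingDist u v = 1

/-- `E` is an independent set of the hypercube `Q_k` on `{0,1}^k`. -/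
def Independent (k : ℕ) (E : Finset (Fin k → Bool)) : Prop :=
  ∀ u ∈ E, ∀ v ∈ E, hammingDist u v ≠ 1

/-- The domination number of `Q_k`. -/
noncomputable def gam (k : ℕ) : ℕ :=
  sInf {n | ∃ E : Finset (Fin k → Bool), Dominating k E ∧ E.card = n}

/-- The independent domination number of `Q_k`. -/
noncomputable def indepDom (k : ℕ) : ℕ :=
  sInf {n | ∃ E : Finset (Fin k → Bool), Dominating k E ∧ Independent k E ∧ E.card = n}

theorem gam_spec (k : ℕ) : ∃ E : Finset (Fin k → Bool), Dominating k E ∧ E.card = gam k := by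
  have hne : {n | ∃ E : Finset (Fin k → Bool), Dominating k E ∧ E.card = n}.Nonempty :=
    ⟨_, univ, fun v => Or.inl (mem_univ v), rfl⟩
  exact Nat.sInf_mem hne

theorem indepDom_le {k : ℕ} {D : Finset (Fin k → Bool)} (h1 : Dominating k D)
    (h2 : Independent k D) : indepDom k ≤ D.card := Nat.sInf_le ⟨D, h1, h2, rfl⟩

/-- For all large `k`:
`2 ^ k / (k + 1) ≤ γ(Q_k) ≤ i(Q_k) ≤ (1 + exp (-(log log k)^2 / 8)) * 2 ^ k / (k + 1)`. -/
theorem result : ∃ k0 : ℕ, ∀ k : ℕ, k0 ≤ k →
    (2 : ℝ) ^ k / (k + 1) ≤ gam k ∧ gam k ≤ indepDom k ∧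
      (indepDom k : ℝ) ≤
        (1 + Real.exp (-(Real.log (Real.log k)) ^ 2 / 8)) * ((2 : ℝ) ^ k / (k + 1)) := by
  obtain ⟨k0, hk0⟩ := Helper660_fall.indep_rate
  refine ⟨k0, fun k hk => ?_⟩
  obtain ⟨D, h1, h2, h3⟩ := hk0 k hk
  have hk1 : (0 : ℝ) < (k : ℝ) + 1 := by positivity
  refine ⟨?_, ?_, ?_⟩
  · obtain ⟨E, hE, hc⟩ := gam_spec k
    have hs := Helper660_fall.sphere_bound hE
    rw [hc] at hs
    rw [div_le_iff₀ hk1]
    exact_mod_cast hs
  · have hne : {n | ∃ E : Finset (Fin k → Bool), Dominating k E ∧ Independent k E ∧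
        E.card = n}.Nonempty := ⟨_, D, h1, h2, rfl⟩
    obtain ⟨E, e1, _, e3⟩ := Nat.sInf_mem hne
    exact Nat.sInf_le ⟨E, e1, e3⟩
  · have hD : (indepDom k : ℝ) ≤ D.card := by exact_mod_cast indepDom_le h1 h2
    rw [← mul_div_assoc, le_div_iff₀ hk1]
    exact (mul_le_mul_of_nonneg_right hD hk1.le).trans h3

end Pool.Agent.Results.MP_bc2c67_co.RateOfEquality
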