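import Pool.Agent.Helper660_fall.Uniform

/-!
A uniform bound in the Harary-Livingston question: in every hypercube `Q_k` the independent
domination number is at most `3/2` times the domination number.
-/

namespace Pool.Agent.Results.MP_bc2c67_co.UniformThreeHalves

/-- `E` is a dominating set of the hypercube `Q_k` on `{0,1}^k`. -/
def Dominating (k : ℕ) (E : Finset (Fin k → Bool)) : Prop :=
  ∀ v : Fin k → Bool, v ∈ E ∨ ∃ u ∈ E, hammingDist u v = 1

/-- `E` is an independent set of the hypercube `Q_k` on `{0,1}^k`. -/
def Independent (k : ℕ) (E : Finset (Fin k → Bool)) : Prop :=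
  ∀ u ∈ E, ∀ v ∈ E, hammingDist u v ≠ 1

/-- The domination number of `Q_k`. -/
noncomputable def gam (k : ℕ) : ℕ :=
  sInf {n | ∃ E : Finset (Fin k → Bool), Dominating k E ∧ E.card = n}

/-- The independent domination number of `Q_k`. -/
noncomputable def indepDom (k : ℕ) : ℕ :=
  sInf {n | ∃ E : Finset (Fin k → Bool), Dominating k E ∧ Independent k E ∧ E.card = n}

/-- For every `k`, the independent domination number of the hypercube `Q_k` is at most `3/2`
times its domination number. -/
theorem result (k : ℕ) : 2 * indepDom k ≤ 3 * gam k := by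
  obtain ⟨D, h1, h2, h3⟩ := Helper660_fall.three_halves k
  have hne : {n | ∃ E : Finset (Fin k → Bool), Dominating k E ∧ E.card = n}.Nonempty :=
    ⟨_, Finset.univ, fun v => Or.inl (Finset.mem_univ v), rfl⟩
  obtain ⟨E, hE, hc⟩ := Nat.sInf_mem hne
  have h4 : indepDom k ≤ D.card := Nat.sInf_le ⟨D, h1, h2, rfl⟩
  have h5 := h3 E hE
  rw [hc] at h5
  have h6 : gam k = sInf {n | ∃ E : Finset (Fin k → Bool), Dominating k E ∧ E.card = n} := rfl
  omega

end Pool.Agent.Results.MP_bc2c67_co.UniformThreeHalves
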